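import Mathlib.Combinatorics.SimpleGraph.Metric
import Mathlib.Data.Real.Basic
import Mathlib.Algebra.Order.Floor.Ring
import Mathlib.Tactic

/-!
# The continuous complete graph on `11` vertices is `(1/2, 5)`-colourable

Each colour `i < 5` has a ball centred at the vertex `i` and nine balls centred on the edges of a
rooted spanning tree of the other ten vertices; the centre belonging to a vertex `x` other than the
root lies on the edge from `x` to its parent, at distance `1/5` or `2/5` from `x`, and this distance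
increases towards the root.
-/

namespace Pool.Agent.Results.MP_4befb3_co.CompleteEleven

/-- A name of a point of the continuous graph `Γ(G)`: the point at distance `t` from `u` on the
segment replacing the edge `uv`. (A point may have several names; these are at distance `0`.) -/
structure Pt {V : Type} (G : SimpleGraph V) where
  /-- first end of the edge -/
  u : V
  /-- second end of the edge -/
  v : V
  /-- `uv` is an edge -/
  adj : G.Adj u v
  /-- distance from the first end -/
  t : ℝ
  /-- lower bound -/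
  h0 : 0 ≤ t
  /-- upper bound -/
  h1 : t ≤ 1

open Classical in
/-- The length of a shortest path in `Γ(G)` (`G` connected) between two points: such a path either
leaves the edge of the first point through one of its ends, runs along edges and enters the edge
of the second point through one of its ends, or it stays inside a common edge. -/
noncomputable def pdist {V : Type} {G : SimpleGraph V} (p q : Pt G) : ℝ :=
  let m := min
    (min (p.t + G.dist p.u q.u + q.t) (p.t + G.dist p.u q.v + (1 - q.t)))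
    (min ((1 - p.t) + G.dist p.v q.u + q.t) ((1 - p.t) + G.dist p.v q.v + (1 - q.t)))
  if p.u = q.u ∧ p.v = q.v then min m |p.t - q.t|
  else if p.u = q.v ∧ p.v = q.u then min m |p.t - (1 - q.t)|
  else m

/-- The closed ball of radius `r` about `p` in `Γ(G)`. -/
def ball {V : Type} {G : SimpleGraph V} (p : Pt G) (r : ℝ) : Set (Pt G) := {q | pdist p q ≤ r}

/-- `Γ(G)` is `(r, c)`-colourable: some family of closed balls of radius `r` covers `Γ(G)` and has
a colouring with `c` colours in which distinct intersecting balls get different colours. -/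
def Colourable {V : Type} (G : SimpleGraph V) (r : ℝ) (c : ℕ) : Prop :=
  ∃ 𝓑 : Set (Set (Pt G)), (∀ B ∈ 𝓑, ∃ p, B = ball p r) ∧ ⋃₀ 𝓑 = Set.univ ∧
    ∃ f : Set (Pt G) → Fin c, ∀ B ∈ 𝓑, ∀ B' ∈ 𝓑, B ≠ B' → (B ∩ B').Nonempty → f B ≠ f B'

/-- The `r`-chromatic number `χ_r(Γ(G))`. -/
noncomputable def chi {V : Type} (G : SimpleGraph V) (r : ℝ) : ℕ :=
  sInf {c | Colourable G r c}

/-- `K_11`. -/
abbrev K : SimpleGraph (Fin 11) := ⊤

theorem kdist (a b : Fin 11) : ((K.dist a b : ℕ) : ℝ) = if a = b then 0 else 1 := by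
  split_ifs with h
  · subst h; simp
  · rw [SimpleGraph.dist_top_of_ne h]; simp

/-- distance, inside its edge, from a point to an end of its edge; `2` for other vertices. -/
noncomputable def len (p : Pt K) (a : Fin 11) : ℝ :=
  if a = p.u then p.t else if a = p.v then 1 - p.t else 2

/-- short distances: two points at distance at most `1/2` lie on a common edge or on edges with a
common end through which the shortest path runs. -/
theorem pdist_le {p q : Pt K} (h : pdist p q ≤ 1 / 2) :
    (p.u = q.u ∧ p.v = q.v ∧ |p.t - q.t| ≤ 1 / 2) ∨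
    (p.u = q.v ∧ p.v = q.u ∧ |p.t - (1 - q.t)| ≤ 1 / 2) ∨
    ∃ a, (a = p.u ∨ a = p.v) ∧ (a = q.u ∨ a = q.v) ∧ len p a + len q a ≤ 1 / 2 := by
  have hp0 := p.h0
  have hp1 := p.h1
  have hq0 := q.h0
  have hq1 := q.h1
  have hpn : p.u ≠ p.v := p.adj.ne
  have hqn : q.u ≠ q.v := q.adj.ne
  have key : min
      (min (p.t + K.dist p.u q.u + q.t) (p.t + K.dist p.u q.v + (1 - q.t)))
      (min ((1 - p.t) + K.dist p.v q.u + q.t) ((1 - p.t) + K.dist p.v q.v + (1 - q.t))) ≤ 1 / 2 →
      ∃ a, (a = p.u ∨ a = p.v) ∧ (a = q.u ∨ a = q.v) ∧ len p a + len q a ≤ 1 / 2 := by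
    intro hm
    rw [min_le_iff, min_le_iff, min_le_iff] at hm
    simp only [kdist] at hm
    rcases hm with (hm | hm) | (hm | hm)
    · by_cases e : p.u = q.u
      · rw [if_pos e] at hm
        refine ⟨p.u, Or.inl rfl, Or.inl e, ?_⟩
        simp only [len, e, if_true]
        linarith
      · rw [if_neg e] at hm; linarith
    · by_cases e : p.u = q.v
      · rw [if_pos e] at hm
        refine ⟨p.u, Or.inl rfl, Or.inr e, ?_⟩
        simp only [len, e, if_true]
        rw [if_neg (Ne.symm hqn)]
        linarith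
      · rw [if_neg e] at hm; linarith
    · by_cases e : p.v = q.u
      · rw [if_pos e] at hm
        refine ⟨p.v, Or.inr rfl, Or.inl e, ?_⟩
        simp only [len, if_true]
        rw [if_neg (Ne.symm hpn), if_pos e]
        linarith
      · rw [if_neg e] at hm; linarith
    · by_cases e : p.v = q.v
      · rw [if_pos e] at hm
        refine ⟨p.v, Or.inr rfl, Or.inr e, ?_⟩
        simp only [len, if_true]
        rw [if_neg (Ne.symm hpn), e, if_neg (Ne.symm hqn)]
        simp only [if_true]
        linarith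
      · rw [if_neg e] at hm; linarith
  unfold pdist at h
  simp only at h
  split_ifs at h with h1 h2
  · rw [min_le_iff] at h
    rcases h with h | h
    · exact Or.inr (Or.inr (key h))
    · exact Or.inl ⟨h1.1, h1.2, h⟩
  · rw [min_le_iff] at h
    rcases h with h | h
    · exact Or.inr (Or.inr (key h))
    · exact Or.inr (Or.inl ⟨h2.1, h2.2, h⟩)
  · exact Or.inr (Or.inr (key h))

theorem pdist_same {p q : Pt K} (h1 : p.u = q.u) (h2 : p.v = q.v) (h : |p.t - q.t| ≤ 1 / 2) :
    pdist p q ≤ 1 / 2 := by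
  unfold pdist
  simp only
  rw [if_pos ⟨h1, h2⟩]
  exact (min_le_right _ _).trans h

theorem pdist_opp {p q : Pt K} (h1 : p.u = q.v) (h2 : p.v = q.u)
    (h : |p.t - (1 - q.t)| ≤ 1 / 2) : pdist p q ≤ 1 / 2 := by
  have hpn : p.u ≠ p.v := p.adj.ne
  unfold pdist
  simp only
  rw [if_neg, if_pos ⟨h1, h2⟩]
  · exact (min_le_right _ _).trans h
  · rintro ⟨h3, -⟩
    exact hpn (h3.trans h2.symm)

theorem pdist_le_m {p q : Pt K} {x : ℝ} (h : min
    (min (p.t + K.dist p.u q.u + q.t) (p.t + K.dist p.u q.v + (1 - q.t)))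
    (min ((1 - p.t) + K.dist p.v q.u + q.t) ((1 - p.t) + K.dist p.v q.v + (1 - q.t))) ≤ x) :
    pdist p q ≤ x := by
  unfold pdist
  simp only
  split_ifs
  · exact (min_le_left _ _).trans h
  · exact (min_le_left _ _).trans h
  · exact h

theorem pdist_first {p q : Pt K} (h1 : p.u = q.u) (h : p.t + q.t ≤ 1 / 2) :
    pdist p q ≤ 1 / 2 := by
  apply pdist_le_m
  rw [kdist p.u q.u, if_pos h1]
  exact (min_le_left _ _).trans ((min_le_left _ _).trans (by linarith))

theorem pdist_second {p q : Pt K} (h1 : p.u = q.v) (h : p.t + (1 - q.t) ≤ 1 / 2) :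
    pdist p q ≤ 1 / 2 := by
  apply pdist_le_m
  rw [kdist p.u q.v, if_pos h1]
  exact (min_le_left _ _).trans ((min_le_right _ _).trans (by linarith))

/-- parents in the five trees (for `x = i`, and for the root, the value is irrelevant). -/
def parL : List (List ℕ) :=
  [[1, 2, 8, 8, 8, 7, 1, 1, 1, 6, 6],
   [7, 0, 10, 9, 7, 10, 4, 0, 7, 7, 7],
   [3, 10, 0, 5, 10, 0, 0, 6, 5, 5, 0],
   [9, 9, 9, 0, 9, 4, 2, 2, 10, 0, 9],
   [8, 5, 5, 6, 0, 6, 0, 3, 6, 8, 3]]

/-- five times the distances of the centres from the child (`0` for the vertex `i` itself,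
`9` for the root, which has no centre). -/
def tauL : List (List ℕ) :=
  [[0, 9, 1, 1, 1, 1, 2, 2, 2, 1, 1],
   [1, 0, 1, 1, 2, 1, 1, 9, 1, 2, 2],
   [9, 1, 0, 1, 1, 2, 2, 1, 1, 1, 2],
   [1, 1, 2, 0, 2, 1, 1, 1, 1, 9, 2],
   [1, 1, 1, 2, 0, 2, 9, 1, 2, 1, 1]]

/-- parent function. -/
def par (i : Fin 5) (x : Fin 11) : Fin 11 := Fin.ofNat 11 ((parL.getD i.val []).getD x.val 0)

/-- numerators. -/
def tau (i : Fin 5) (x : Fin 11) : ℕ := (tauL.getD i.val []).getD x.val 0

theorem par_ne : ∀ i x, x ≠ par i x := by decide +kernel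

/-- distance (times `5`) of the centre of `(i, x)` to the vertex `a`. -/
def ln (i : Fin 5) (x a : Fin 11) : ℕ :=
  if a = x then tau i x else if a = par i x then 5 - tau i x else 10

theorem tau_bound : ∀ i x, tau i x ≠ 9 → tau i x ≤ 2 := by decide +kernel

/-- centres of the same colour: different edges. -/
theorem edges_ne : ∀ i x y, tau i x ≠ 9 → tau i y ≠ 9 → x ≠ y →
    ¬ (x = par i y ∧ par i x = y) := by decide +kernel

/-- centres of the same colour: far apart at common ends. -/
theorem far : ∀ i x y a, tau i x ≠ 9 → tau i y ≠ 9 → x ≠ y → (a = x ∨ a = par i x) →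
    (a = y ∨ a = par i y) → 5 < ln i x a + ln i y a := by decide +kernel

/-- only one centre of each colour is a vertex. -/
theorem pos : ∀ i x y, x ≠ y → tau i x ≠ 9 → tau i y ≠ 9 → (0 < tau i x ∨ 0 < tau i y) := by
  decide +kernel

/-- the covering condition. -/
theorem cov : ∀ x y : Fin 11, x ≠ y →
    (∃ i j, tau i x = 0 ∧ tau j y = 0) ∨
    (∃ i j, tau i x ≠ 9 ∧ par i x = y ∧ tau j y ≠ 9 ∧ tau j y ≤ tau i x) ∨
    (∃ i j, tau i y ≠ 9 ∧ par i y = x ∧ tau j x ≠ 9 ∧ tau j x ≤ tau i y) := by
  decide +kernel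

/-- the centres. -/
noncomputable def ctr (i : Fin 5) (x : Fin 11) : Pt K where
  u := x
  v := par i x
  adj := by simpa using par_ne i x
  t := if tau i x = 9 then 0 else (tau i x : ℝ) / 5
  h0 := by
    split_ifs
    · exact le_rfl
    · positivity
  h1 := by
    split_ifs with h
    · norm_num
    · have := tau_bound i x h
      have h2 : (tau i x : ℝ) ≤ 2 := by exact_mod_cast this
      linarith

theorem ctr_t {i : Fin 5} {x : Fin 11} (h : tau i x ≠ 9) : (ctr i x).t = (tau i x : ℝ) / 5 := by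
  simp only [ctr]
  rw [if_neg h]

theorem len_ctr {i : Fin 5} {x a : Fin 11} (h : tau i x ≠ 9) :
    len (ctr i x) a = (ln i x a : ℝ) / 5 := by
  have hb := tau_bound i x h
  unfold len ln
  have e1 : (ctr i x).u = x := rfl
  have e2 : (ctr i x).v = par i x := rfl
  rw [e1, e2, ctr_t h]
  split_ifs
  · rfl
  · rw [Nat.cast_sub (by omega)]; push_cast; ring
  · norm_num

/-- balls of the same colour around different centres are disjoint. -/
theorem disj {i : Fin 5} {x y : Fin 11} (hx : tau i x ≠ 9) (hy : tau i y ≠ 9) (hxy : x ≠ y)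
    (q : Pt K) (h1 : pdist (ctr i x) q ≤ 1 / 2) (h2 : pdist (ctr i y) q ≤ 1 / 2) : False := by
  have hq0 := q.h0
  have hq1 := q.h1
  have hqn : q.u ≠ q.v := q.adj.ne
  have hfar : ∀ a, (a = x ∨ a = par i x) → (a = y ∨ a = par i y) →
      1 < len (ctr i x) a + len (ctr i y) a := by
    intro a ha hb
    have := far i x y a hx hy hxy ha hb
    rw [len_ctr hx, len_ctr hy]
    have h3 : (5 : ℝ) < ln i x a + ln i y a := by exact_mod_cast this
    linarith
  have hun : ∀ i : Fin 5, ∀ x, (ctr i x).u = x := fun _ _ => rfl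
  have hvn : ∀ i : Fin 5, ∀ x, (ctr i x).v = par i x := fun _ _ => rfl
  have lenq : ∀ a, (a = q.u ∨ a = q.v) → (a = q.u ∧ len q a = q.t) ∨ (a = q.v ∧ len q a = 1 - q.t) := by
    rintro a (rfl | rfl)
    · left; exact ⟨rfl, by simp [len]⟩
    · right; exact ⟨rfl, by simp [len, hqn.symm]⟩
  -- consequence of being on the same edge
  have same : ∀ z : Fin 11, tau i z ≠ 9 →
      ((ctr i z).u = q.u ∧ (ctr i z).v = q.v ∧ |(ctr i z).t - q.t| ≤ 1 / 2) ∨
      ((ctr i z).u = q.v ∧ (ctr i z).v = q.u ∧ |(ctr i z).t - (1 - q.t)| ≤ 1 / 2) →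
      (∀ a, (a = q.u ∨ a = q.v) → (a = z ∨ a = par i z) ∧
        len (ctr i z) a ≤ 1 / 2 + len q a) := by
    intro z hz hcase a ha
    have hzn := par_ne i z
    rcases hcase with ⟨e1, e2, e3⟩ | ⟨e1, e2, e3⟩
    · rw [hun] at e1
      rw [hvn] at e2
      rw [abs_le] at e3
      rcases lenq a ha with ⟨rfl, h⟩ | ⟨rfl, h⟩
      · refine ⟨Or.inl e1.symm, ?_⟩
        rw [h]
        rw [← e1]
        simp only [len, hun, if_true]
        linarith
      · refine ⟨Or.inr e2.symm, ?_⟩
        rw [h]
        simp only [len, hun, hvn]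
        rw [if_neg (by rw [e1]; exact hqn.symm), if_pos e2.symm]
        linarith
    · rw [hun] at e1
      rw [hvn] at e2
      rw [abs_le] at e3
      rcases lenq a ha with ⟨rfl, h⟩ | ⟨rfl, h⟩
      · refine ⟨Or.inr e2.symm, ?_⟩
        rw [h]
        simp only [len, hun, hvn]
        rw [if_neg (by rw [e1]; exact hqn), if_pos e2.symm]
        linarith
      · refine ⟨Or.inl e1.symm, ?_⟩
        rw [h]
        rw [← e1]
        simp only [len, hun, if_true]
        linarith
  have hpos := pos i x y hxy hx hy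
  rcases pdist_le h1 with c1 | c1 | ⟨a, ha1, ha2, ha3⟩
  · rcases pdist_le h2 with c2 | c2 | ⟨b, hb1, hb2, hb3⟩
    · exact hxy (c1.1.trans c2.1.symm)
    · exact edges_ne i x y hx hy hxy ⟨c1.1.trans c2.2.1.symm, c1.2.1.trans c2.1.symm⟩
    · have := same x hx (Or.inl c1) b hb2
      have h4 := hfar b this.1 hb1
      linarith [this.2]
  · rcases pdist_le h2 with c2 | c2 | ⟨b, hb1, hb2, hb3⟩
    · exact edges_ne i x y hx hy hxy ⟨c1.1.trans c2.2.1.symm, c1.2.1.trans c2.1.symm⟩
    · exact hxy (c1.1.trans c2.1.symm)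
    · have := same x hx (Or.inr c1) b hb2
      have h4 := hfar b this.1 hb1
      linarith [this.2]
  · rcases pdist_le h2 with c2 | c2 | ⟨b, hb1, hb2, hb3⟩
    · have := same y hy (Or.inl c2) a ha2
      have h4 := hfar a ha1 this.1
      linarith [this.2]
    · have := same y hy (Or.inr c2) a ha2
      have h4 := hfar a ha1 this.1
      linarith [this.2]
    · by_cases hab : a = b
      · subst hab
        have h4 := hfar a ha1 hb1
        have h5 : 0 ≤ len q a := by
          rcases lenq a ha2 with ⟨-, h⟩ | ⟨-, h⟩ <;> rw [h] <;> linarith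
        linarith
      · have hsum : len q a + len q b = 1 := by
          rcases lenq a ha2 with ⟨e, h⟩ | ⟨e, h⟩ <;> rcases lenq b hb2 with ⟨e', h'⟩ | ⟨e', h'⟩
          · exact absurd (e.trans e'.symm) hab
          · rw [h, h']; ring
          · rw [h, h']; ring
          · exact absurd (e.trans e'.symm) hab
        have hnx : 0 ≤ len (ctr i x) a ∧ (len (ctr i x) a = 0 → tau i x = 0) := by
          have hb := tau_bound i x hx
          rw [len_ctr hx]
          refine ⟨by positivity, ?_⟩
          intro h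
          have h' : (ln i x a : ℝ) = 0 := by linarith
          have h'' : ln i x a = 0 := by exact_mod_cast h'
          unfold ln at h''
          split_ifs at h'' <;> omega
        have hny : 0 ≤ len (ctr i y) b ∧ (len (ctr i y) b = 0 → tau i y = 0) := by
          have hb := tau_bound i y hy
          rw [len_ctr hy]
          refine ⟨by positivity, ?_⟩
          intro h
          have h' : (ln i y b : ℝ) = 0 := by linarith
          have h'' : ln i y b = 0 := by exact_mod_cast h'
          unfold ln at h''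
          split_ifs at h'' <;> omega
        have h5 : len (ctr i x) a = 0 := by linarith [hnx.1, hny.1]
        have h6 : len (ctr i y) b = 0 := by linarith [hnx.1, hny.1]
        have h7 := hnx.2 h5
        have h8 := hny.2 h6
        omega

/-- the balls cover. -/
theorem covers (q : Pt K) : ∃ i x, tau i x ≠ 9 ∧ pdist (ctr i x) q ≤ 1 / 2 := by
  have hq0 := q.h0
  have hq1 := q.h1
  have hqn : q.u ≠ q.v := q.adj.ne
  rcases cov q.u q.v hqn with ⟨i, j, h1, h2⟩ | ⟨i, j, h1, h2, h3, h4⟩ | ⟨i, j, h1, h2, h3, h4⟩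
  · have h1' : tau i q.u ≠ 9 := by rw [h1]; norm_num
    have h2' : tau j q.v ≠ 9 := by rw [h2]; norm_num
    rcases le_total q.t (1 / 2) with h | h
    · refine ⟨i, q.u, h1', ?_⟩
      apply pdist_first (p := ctr i q.u) (q := q) rfl
      rw [ctr_t h1', h1]
      simpa using h
    · refine ⟨j, q.v, h2', ?_⟩
      apply pdist_second (p := ctr j q.v) (q := q) rfl
      rw [ctr_t h2', h2]
      simp only [CharP.cast_eq_zero, zero_div, zero_add]
      linarith
  · have hb := tau_bound i q.u h1
    have hb' : (tau i q.u : ℝ) ≤ 2 := by exact_mod_cast hb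
    have h4' : (tau j q.v : ℝ) ≤ tau i q.u := by exact_mod_cast h4
    have hn : (0 : ℝ) ≤ tau i q.u := Nat.cast_nonneg _
    rcases le_total q.t ((tau i q.u : ℝ) / 5 + 1 / 2) with h | h
    · refine ⟨i, q.u, h1, ?_⟩
      apply pdist_same (p := ctr i q.u) (q := q) rfl h2
      rw [ctr_t h1, abs_le]
      constructor <;> linarith
    · refine ⟨j, q.v, h3, ?_⟩
      apply pdist_second (p := ctr j q.v) (q := q) rfl
      rw [ctr_t h3]
      linarith
  · have hb := tau_bound i q.v h1
    have hb' : (tau i q.v : ℝ) ≤ 2 := by exact_mod_cast hb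
    have h4' : (tau j q.u : ℝ) ≤ tau i q.v := by exact_mod_cast h4
    have hn : (0 : ℝ) ≤ tau i q.v := Nat.cast_nonneg _
    rcases le_total (1 - q.t) ((tau i q.v : ℝ) / 5 + 1 / 2) with h | h
    · refine ⟨i, q.v, h1, ?_⟩
      apply pdist_opp (p := ctr i q.v) (q := q) rfl h2
      rw [ctr_t h1, abs_le]
      constructor <;> linarith
    · refine ⟨j, q.u, h3, ?_⟩
      apply pdist_first (p := ctr j q.u) (q := q) rfl
      rw [ctr_t h3]
      linarith

theorem colourable : Colourable K (1 / 2) 5 := by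
  classical
  refine ⟨{B | ∃ i x, tau i x ≠ 9 ∧ B = ball (ctr i x) (1 / 2)}, ?_, ?_, ?_⟩
  · rintro B ⟨i, x, -, rfl⟩
    exact ⟨_, rfl⟩
  · rw [Set.eq_univ_iff_forall]
    intro q
    obtain ⟨i, x, h, h'⟩ := covers q
    exact ⟨_, ⟨i, x, h, rfl⟩, h'⟩
  · refine ⟨fun B => if h : ∃ i x, tau i x ≠ 9 ∧ B = ball (ctr i x) (1 / 2) then h.choose else 0,
      ?_⟩
    intro B hB B' hB' hne hint heq
    have hB2 : ∃ i x, tau i x ≠ 9 ∧ B = ball (ctr i x) (1 / 2) := hB
    have hB2' : ∃ i x, tau i x ≠ 9 ∧ B' = ball (ctr i x) (1 / 2) := hB'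
    simp only at heq
    rw [dif_pos hB2, dif_pos hB2'] at heq
    obtain ⟨x, hx, ex⟩ := hB2.choose_spec
    obtain ⟨y, hy, ey⟩ := hB2'.choose_spec
    rw [← heq] at hy ey
    obtain ⟨q, hq, hq'⟩ := hint
    rw [ex] at hq
    rw [ey] at hq'
    have hxy : x ≠ y := by
      rintro rfl
      exact hne (ex.trans ey.symm)
    exact disj hx hy hxy q hq hq'

/-- `χ_{1/2}(Γ(K_11)) ≤ 5 < 6 = ⌈11/2⌉`; in particular the conjectured equality
`χ_{1/2}(Γ(K_n)) = ⌈n/2⌉` fails. -/
theorem result :
    chi (⊤ : SimpleGraph (Fin 11)) (1 / 2) ≤ 5 ∧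
    ¬ ∀ n : ℕ, 2 ≤ n → chi (⊤ : SimpleGraph (Fin n)) (1 / 2) = ⌈(n : ℚ) / 2⌉₊ := by
  have h5 : chi (⊤ : SimpleGraph (Fin 11)) (1 / 2) ≤ 5 := Nat.sInf_le colourable
  refine ⟨h5, ?_⟩
  intro h
  have h11 := h 11 (by norm_num)
  have h6 : ⌈((11 : ℕ) : ℚ) / 2⌉₊ = 6 := by
    rw [Nat.ceil_eq_iff (by norm_num)]
    constructor <;> norm_num
  omega

end Pool.Agent.Results.MP_4befb3_co.CompleteEleven
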